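import Mathlib
import Pool.Agent.Lib.MP_c53f59_gt.Defs0
import Pool.Agent.Lib.MP_c53f59_gt.Main

/-!
# MP_c53f59_gt : the largest volume of isospectral spherical space forms

The least order of the fundamental group in a pair of isospectral, non-isometric spherical space
forms of dimension `2 n - 1` (volume = volume of the sphere divided by the order).
-/

open MPc53f59

namespace Pool.Agent.Results.MP_c53f59_gt.LargestVolume

/-- Let `3 ≤ n`. If `n ≡ 1, 2, 3 mod 5` and `n ≠ 6`, the least order is `11`. If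
`n ≡ 0, 4 mod 5` or `n = 6`, there is no pair of order less than `13`. If `n ≡ 0, 4 mod 5` and
`n ≡ 1, 2, 3, 4 mod 6`, the least order is `13`. -/
theorem result (n : ℕ) (hn : 3 ≤ n) :
    ((n % 5 = 1 ∨ n % 5 = 2 ∨ n % 5 = 3) → n ≠ 6 → IsLeast (pairOrders n) 11) ∧
    ((n % 5 = 0 ∨ n % 5 = 4 ∨ n = 6) → ∀ m ∈ pairOrders n, 13 ≤ m) ∧
    ((n % 5 = 0 ∨ n % 5 = 4) → (n % 6 = 1 ∨ n % 6 = 2 ∨ n % 6 = 3 ∨ n % 6 = 4) →
      IsLeast (pairOrders n) 13) :=
  main n hn

end Pool.Agent.Results.MP_c53f59_gt.LargestVolume
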